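import Mathlib

/-!
Digraphs on `Fin n`, their Laplacian and their algebraic connectivity.
-/

namespace Pool.Agent.MP_31cf8f_co.H41

open Matrix Finset

open Classical in
/-- adjacency matrix of the digraph with arc relation `E` -/
noncomputable def adj {n : ℕ} (E : Fin n → Fin n → Prop) : Matrix (Fin n) (Fin n) ℝ :=
  fun i j => if E i j then 1 else 0

/-- Laplacian `D - A`, with `D` the diagonal matrix of out-degrees -/
noncomputable def lap {n : ℕ} (E : Fin n → Fin n → Prop) : Matrix (Fin n) (Fin n) ℝ :=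
  Matrix.diagonal (fun i => ∑ j, adj E i j) - adj E

/-- `a` is the algebraic connectivity: the minimum of `z ⬝ L z` over unit vectors `z` orthogonal
to the all-ones vector -/
def IsAlgConn {n : ℕ} (E : Fin n → Fin n → Prop) (a : ℝ) : Prop :=
  IsLeast {t : ℝ | ∃ z : Fin n → ℝ, ∑ i, z i = 0 ∧ ∑ i, z i ^ 2 = 1 ∧
    t = z ⬝ᵥ (lap E *ᵥ z)} a

/-- the complement digraph -/
def coDigraph {n : ℕ} (E : Fin n → Fin n → Prop) : Fin n → Fin n → Prop :=
  fun i j => i ≠ j ∧ ¬ E i j

end Pool.Agent.MP_31cf8f_co.H41
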