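import Mathlib
import Pool.Agent.MP_31cf8f_co.H41.Defs

namespace Pool.Agent.MP_31cf8f_co.H41

open Matrix Finset

variable {n : ℕ}

lemma adj_nonneg (E : Fin n → Fin n → Prop) (i j : Fin n) : 0 ≤ adj E i j := by
  unfold adj; split_ifs <;> norm_num

lemma quad_eq (E : Fin n → Fin n → Prop) (hb : ∀ i, ∑ j, adj E i j = ∑ j, adj E j i)
    (z : Fin n → ℝ) :
    z ⬝ᵥ (lap E *ᵥ z) = (1 / 2) * ∑ i, ∑ j, adj E i j * (z i - z j) ^ 2 := by
  have h1 : z ⬝ᵥ (lap E *ᵥ z) =
      ∑ i, (∑ j, adj E i j) * z i ^ 2 - ∑ i, ∑ j, adj E i j * (z i * z j) := by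
    unfold lap
    rw [Matrix.sub_mulVec, dotProduct_sub]
    congr 1
    · simp only [dotProduct, Matrix.mulVec_diagonal]
      exact Finset.sum_congr rfl fun i _ => by ring
    · simp only [dotProduct, Matrix.mulVec, Finset.mul_sum]
      exact Finset.sum_congr rfl fun i _ => Finset.sum_congr rfl fun j _ => by ring
  have h2 : ∑ i, ∑ j, adj E i j * z j ^ 2 = ∑ i, (∑ j, adj E i j) * z i ^ 2 := by
    rw [Finset.sum_comm]
    refine Finset.sum_congr rfl fun i _ => ?_
    rw [hb i, Finset.sum_mul]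
  have h3 : ∑ i, ∑ j, adj E i j * z i ^ 2 = ∑ i, (∑ j, adj E i j) * z i ^ 2 := by
    refine Finset.sum_congr rfl fun i _ => ?_
    rw [Finset.sum_mul]
  have h4 : ∑ i, ∑ j, adj E i j * (z i - z j) ^ 2 =
      ∑ i, ∑ j, adj E i j * z i ^ 2 + ∑ i, ∑ j, adj E i j * z j ^ 2
        - 2 * ∑ i, ∑ j, adj E i j * (z i * z j) := by
    rw [Finset.mul_sum, ← Finset.sum_add_distrib, ← Finset.sum_sub_distrib]
    refine Finset.sum_congr rfl fun i _ => ?_
    rw [Finset.mul_sum, ← Finset.sum_add_distrib, ← Finset.sum_sub_distrib]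
    exact Finset.sum_congr rfl fun j _ => by ring
  rw [h1, h4, h2, h3]; ring

/-- existence of the minimum, an upper bound from a test vector, positivity from a hub -/
lemma exists_alg (E : Fin n → Fin n → Prop) (hb : ∀ i, ∑ j, adj E i j = ∑ j, adj E j i)
    (hub : Fin n) (hhub : ∀ i, i = hub ∨ E i hub ∨ E hub i)
    (w : Fin n → ℝ) (c : ℝ) (hn : 0 < n)
    (hden : 0 < ∑ i, w i ^ 2 - (∑ i, w i) ^ 2 / n)
    (hc : (1 / 2) * ∑ i, ∑ j, adj E i j * (w i - w j) ^ 2 ≤
      c * (∑ i, w i ^ 2 - (∑ i, w i) ^ 2 / n)) :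
    ∃ a, IsAlgConn E a ∧ 0 < a ∧ a ≤ c := by
  set D := ∑ i, w i ^ 2 - (∑ i, w i) ^ 2 / n with hD
  set μ := (∑ i, w i) / n with hμ
  have hn' : (0 : ℝ) < n := by exact_mod_cast hn
  let S : Set (Fin n → ℝ) := {z | ∑ i, z i = 0 ∧ ∑ i, z i ^ 2 = 1}
  let z0 : Fin n → ℝ := fun i => (w i - μ) / √D
  have hsq : √D ^ 2 = D := Real.sq_sqrt hden.le
  have hs0 : 0 < √D := Real.sqrt_pos.2 hden
  have hz0 : z0 ∈ S := by
    constructor
    · simp only [z0]
      rw [← Finset.sum_div, Finset.sum_sub_distrib]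
      simp only [Finset.sum_const, Finset.card_univ, Fintype.card_fin, nsmul_eq_mul]
      rw [hμ]; field_simp; simp
    · simp only [z0, div_pow]
      rw [← Finset.sum_div, hsq, div_eq_one_iff_eq hden.ne']
      have : ∑ i, (w i - μ) ^ 2 = ∑ i, w i ^ 2 - 2 * μ * ∑ i, w i + n * μ ^ 2 := by
        rw [Finset.mul_sum, ← Finset.sum_sub_distrib]
        have : (n : ℝ) * μ ^ 2 = ∑ _i : Fin n, μ ^ 2 := by simp
        rw [this, ← Finset.sum_add_distrib]
        exact Finset.sum_congr rfl fun i _ => by ring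
      rw [this, hD, hμ]; field_simp; ring
  have hclosed : IsClosed S := by
    refine IsClosed.inter (isClosed_eq ?_ continuous_const) (isClosed_eq ?_ continuous_const)
    · fun_prop
    · fun_prop
  have hbdd : Bornology.IsBounded S := by
    refine (Metric.isBounded_closedBall (x := (0 : Fin n → ℝ)) (r := 1)).subset ?_
    intro z hz
    rw [mem_closedBall_zero_iff, pi_norm_le_iff_of_nonneg zero_le_one]
    intro i
    have : z i ^ 2 ≤ 1 := by
      rw [← hz.2]
      exact Finset.single_le_sum (f := fun i => z i ^ 2) (fun j _ => sq_nonneg _)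
        (Finset.mem_univ i)
    rw [Real.norm_eq_abs]
    exact abs_le_one_iff_mul_self_le_one.2 (by nlinarith)
  have hcomp : IsCompact S := Metric.isCompact_of_isClosed_isBounded hclosed hbdd
  have hcont : Continuous fun z : Fin n → ℝ => z ⬝ᵥ (lap E *ᵥ z) := by
    simp only [dotProduct, Matrix.mulVec]
    fun_prop
  obtain ⟨z, hzS, hzmin⟩ := hcomp.exists_isMinOn ⟨z0, hz0⟩ hcont.continuousOn
  refine ⟨z ⬝ᵥ (lap E *ᵥ z), ⟨⟨z, hzS.1, hzS.2, rfl⟩, ?_⟩, ?_, ?_⟩
  · rintro t ⟨y, hy1, hy2, rfl⟩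
    exact hzmin (show y ∈ S from ⟨hy1, hy2⟩)
  · rw [quad_eq E hb]
    have hnn : ∀ i j, 0 ≤ adj E i j * (z i - z j) ^ 2 := fun i j =>
      mul_nonneg (adj_nonneg E i j) (sq_nonneg _)
    have h0 : 0 ≤ ∑ i, ∑ j, adj E i j * (z i - z j) ^ 2 :=
      Finset.sum_nonneg fun i _ => Finset.sum_nonneg fun j _ => hnn i j
    rcases h0.lt_or_eq with h | h
    · linarith
    · exfalso
      have hall : ∀ i j, E i j → z i = z j := by
        intro i j hij
        have h1 := (Finset.sum_eq_zero_iff_of_nonneg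
          (fun i _ => Finset.sum_nonneg fun j _ => hnn i j)).1 h.symm i (Finset.mem_univ i)
        have h2 := (Finset.sum_eq_zero_iff_of_nonneg (fun j _ => hnn i j)).1 h1 j
          (Finset.mem_univ j)
        have h3 : adj E i j = 1 := by unfold adj; rw [if_pos hij]
        rw [h3, one_mul] at h2
        exact sub_eq_zero.1 (pow_eq_zero_iff two_ne_zero |>.1 h2)
      have hconst : ∀ i, z i = z hub := by
        intro i
        rcases hhub i with rfl | h | h
        · rfl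
        · exact hall _ _ h
        · exact (hall _ _ h).symm
      have h1 := hzS.1
      have h2 := hzS.2
      simp only [hconst, Finset.sum_const, Finset.card_univ, Fintype.card_fin,
        nsmul_eq_mul] at h1 h2
      have : z hub = 0 := by
        rcases mul_eq_zero.1 h1 with h | h
        · exact absurd h hn'.ne'
        · exact h
      rw [this] at h2; norm_num at h2
  · refine le_trans (hzmin hz0) ?_
    show z0 ⬝ᵥ (lap E *ᵥ z0) ≤ c
    rw [quad_eq E hb]
    have : ∑ i, ∑ j, adj E i j * (z0 i - z0 j) ^ 2 =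
        (∑ i, ∑ j, adj E i j * (w i - w j) ^ 2) / D := by
      rw [Finset.sum_div]
      refine Finset.sum_congr rfl fun i _ => ?_
      rw [Finset.sum_div]
      refine Finset.sum_congr rfl fun j _ => ?_
      simp only [z0]
      rw [← sub_div, div_pow, hsq]; ring
    rw [this, ← mul_div_assoc, div_le_iff₀ hden]
    exact hc

/-- the class of a vertex: the four special vertices, or one of the others -/
def cls {m : ℕ} (i : Fin (m + 4)) : Fin 5 :=
  if h : i.val < 4 then ⟨i.val, by omega⟩ else 4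

lemma sum_cls (m : ℕ) (f : Fin 5 → ℝ) :
    ∑ i : Fin (m + 4), f (cls i) = f 0 + f 1 + f 2 + f 3 + m * f 4 := by
  rw [Fin.sum_univ_succ, Fin.sum_univ_succ, Fin.sum_univ_succ, Fin.sum_univ_succ]
  have : ∀ i : Fin m, cls (i.succ.succ.succ.succ : Fin (m + 4)) = 4 := by
    intro i; unfold cls; rw [dif_neg]; simp
  simp only [this, Finset.sum_const, Finset.card_univ, Fintype.card_fin, nsmul_eq_mul]
  have h0 : cls (0 : Fin (m + 4)) = 0 := rfl
  have h1 : cls (Fin.succ 0 : Fin (m + 4)) = 1 := rfl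
  have h2 : cls (Fin.succ (Fin.succ 0) : Fin (m + 4)) = 2 := rfl
  have h3 : cls (Fin.succ (Fin.succ (Fin.succ 0)) : Fin (m + 4)) = 3 := rfl
  rw [h0, h1, h2, h3]; ring

/-- the arc table between classes -/
def tab : Fin 5 → Fin 5 → Bool :=
  ![![false, true, false, false, false],
    ![false, false, true, true, false],
    ![false, false, false, true, true],
    ![true, true, false, false, true],
    ![false, false, true, true, false]]

/-- the example -/
def ex (m : ℕ) : Fin (m + 4) → Fin (m + 4) → Prop := fun i j => tab (cls i) (cls j) = true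

/-- the table as a real matrix -/
def tabR : Fin 5 → Fin 5 → ℝ := fun a b => if tab a b then 1 else 0

lemma adj_ex (m : ℕ) (i j : Fin (m + 4)) : adj (ex m) i j = tabR (cls i) (cls j) := by
  unfold adj tabR ex
  by_cases h : tab (cls i) (cls j) = true <;> simp [h]

lemma ex_irrefl (m : ℕ) (i : Fin (m + 4)) : ¬ ex m i i := by
  unfold ex
  have : ∀ a : Fin 5, ¬ tab a a = true := by decide
  exact this _

lemma adj_compl (E : Fin n → Fin n → Prop) (hE : ∀ i, ¬ E i i) (i j : Fin n) :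
    adj (coDigraph E) i j = 1 - adj E i j - if i = j then 1 else 0 := by
  unfold adj coDigraph
  by_cases h : i = j
  · subst h; simp [hE i]
  · by_cases h2 : E i j <;> simp [h, h2]

lemma bal_ex (m : ℕ) (i : Fin (m + 4)) : ∑ j, adj (ex m) i j = ∑ j, adj (ex m) j i := by
  simp only [adj_ex]
  rw [sum_cls m (fun b => tabR (cls i) b), sum_cls m (fun b => tabR b (cls i))]
  generalize cls i = a
  fin_cases a <;> simp [tabR, tab]

lemma bal_compl (E : Fin n → Fin n → Prop) (hE : ∀ i, ¬ E i i)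
    (hb : ∀ i, ∑ j, adj E i j = ∑ j, adj E j i) (i : Fin n) :
    ∑ j, adj (coDigraph E) i j = ∑ j, adj (coDigraph E) j i := by
  simp only [adj_compl E hE, Finset.sum_sub_distrib, hb i]
  simp

lemma cls_cases {m : ℕ} (i : Fin (m + 4)) (k : Fin (m + 4)) (hk : k.val < 4)
    (h : cls i = cls k) : i = k := by
  unfold cls at h
  rw [dif_pos hk] at h
  by_cases hi : i.val < 4
  · rw [dif_pos hi] at h
    exact Fin.ext (by simpa using h)
  · rw [dif_neg hi] at h
    have := congrArg Fin.val h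
    simp at this; omega

lemma alg_ex (m : ℕ) (hm : 6 ≤ m) : ∃ a, IsAlgConn (ex m) a ∧ 0 < a ∧ a ≤ 87 / 100 := by
  have hm' : (6 : ℝ) ≤ m := by exact_mod_cast hm
  let f : Fin 5 → ℝ := ![10 * m, 4 * m, 0, 6, 0]
  have hs1 : ∑ i : Fin (m + 4), f (cls i) = 14 * m + 6 := by
    rw [sum_cls]; simp [f]; ring
  have hs2 : ∑ i : Fin (m + 4), f (cls i) ^ 2 = 116 * m ^ 2 + 36 := by
    rw [sum_cls m (fun b => f b ^ 2)]; simp [f]; ring
  have hs3 : ∑ i : Fin (m + 4), ∑ j : Fin (m + 4), adj (ex m) i j * (f (cls i) - f (cls j)) ^ 2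
      = 2 * (92 * m ^ 2 - 72 * m + 72) := by
    simp only [adj_ex]
    have : ∀ i : Fin (m + 4), ∑ j : Fin (m + 4),
        tabR (cls i) (cls j) * (f (cls i) - f (cls j)) ^ 2 = _ :=
      fun i => sum_cls m (fun b => tabR (cls i) b * (f (cls i) - f b) ^ 2)
    simp only [this]
    rw [sum_cls m (fun a => tabR a 0 * (f a - f 0) ^ 2 + tabR a 1 * (f a - f 1) ^ 2 +
      tabR a 2 * (f a - f 2) ^ 2 + tabR a 3 * (f a - f 3) ^ 2 + m * (tabR a 4 * (f a - f 4) ^ 2))]
    simp [tabR, tab, f]; ring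
  have hpos : (0 : ℝ) < (m : ℝ) + 4 := by linarith
  refine exists_alg (ex m) (bal_ex m) ⟨3, by omega⟩ ?_ (fun i => f (cls i)) _ (by omega) ?_ ?_
  · intro i
    have h3 : cls (⟨3, by omega⟩ : Fin (m + 4)) = 3 := rfl
    by_cases h : cls i = 3
    · left; exact cls_cases i _ (by simp) (h.trans h3.symm)
    · right; unfold ex; rw [h3]
      have : ∀ a : Fin 5, a ≠ 3 → tab a 3 = true ∨ tab 3 a = true := by decide
      exact this _ h
  · rw [hs1, hs2]; push_cast
    rw [sub_pos, div_lt_iff₀ hpos]; nlinarith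
  · rw [hs1, hs2, hs3]; push_cast
    have : (14 * (m : ℝ) + 6) ^ 2 / (m + 4) ≤
        116 * m ^ 2 + 36 - (100 / 87) * (92 * m ^ 2 - 72 * m + 72) := by
      rw [div_le_iff₀ hpos]; nlinarith [mul_nonneg (sub_nonneg.2 hm') (sq_nonneg (m : ℝ)),
        mul_nonneg (sub_nonneg.2 hm') (sub_nonneg.2 hm')]
    linarith

lemma alg_compl (m : ℕ) (hm : 6 ≤ m) :
    ∃ a, IsAlgConn (coDigraph (ex m)) a ∧ 0 < a ∧ a ≤ 87 / 100 := by
  have hm' : (6 : ℝ) ≤ m := by exact_mod_cast hm
  let f : Fin 5 → ℝ := ![6, 0, 4 * m, 10 * m, 0]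
  have hs1 : ∑ i : Fin (m + 4), f (cls i) = 14 * m + 6 := by
    rw [sum_cls]; simp [f]; ring
  have hs2 : ∑ i : Fin (m + 4), f (cls i) ^ 2 = 116 * m ^ 2 + 36 := by
    rw [sum_cls m (fun b => f b ^ 2)]; simp [f]; ring
  have hs3 : ∑ i : Fin (m + 4), ∑ j : Fin (m + 4),
      adj (coDigraph (ex m)) i j * (f (cls i) - f (cls j)) ^ 2 = 2 * (92 * m ^ 2 - 72 * m + 72) := by
    have h0 : ∀ i j : Fin (m + 4), adj (coDigraph (ex m)) i j * (f (cls i) - f (cls j)) ^ 2 =
        (1 - tabR (cls i) (cls j)) * (f (cls i) - f (cls j)) ^ 2 := by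
      intro i j
      rw [adj_compl _ (ex_irrefl m), adj_ex]
      by_cases h : i = j
      · subst h; simp
      · simp [h]
    simp only [h0]
    have : ∀ i : Fin (m + 4), ∑ j : Fin (m + 4),
        (1 - tabR (cls i) (cls j)) * (f (cls i) - f (cls j)) ^ 2 = _ :=
      fun i => sum_cls m (fun b => (1 - tabR (cls i) b) * (f (cls i) - f b) ^ 2)
    simp only [this]
    rw [sum_cls m (fun a => (1 - tabR a 0) * (f a - f 0) ^ 2 + (1 - tabR a 1) * (f a - f 1) ^ 2 +
      (1 - tabR a 2) * (f a - f 2) ^ 2 + (1 - tabR a 3) * (f a - f 3) ^ 2 +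
      m * ((1 - tabR a 4) * (f a - f 4) ^ 2))]
    simp [tabR, tab, f]; ring
  have hpos : (0 : ℝ) < (m : ℝ) + 4 := by linarith
  refine exists_alg (coDigraph (ex m)) (bal_compl _ (ex_irrefl m) (bal_ex m)) ⟨0, by omega⟩ ?_
    (fun i => f (cls i)) _ (by omega) ?_ ?_
  · intro i
    have h3 : cls (⟨0, by omega⟩ : Fin (m + 4)) = 0 := rfl
    by_cases h : i = ⟨0, by omega⟩
    · left; exact h
    · right; unfold coDigraph ex; rw [h3]
      have : ∀ a : Fin 5, ¬ tab a 0 = true ∨ ¬ tab 0 a = true := by decide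
      rcases this (cls i) with h1 | h1
      · exact Or.inl ⟨h, h1⟩
      · exact Or.inr ⟨Ne.symm h, h1⟩
  · rw [hs1, hs2]; push_cast
    rw [sub_pos, div_lt_iff₀ hpos]; nlinarith
  · rw [hs1, hs2, hs3]; push_cast
    have : (14 * (m : ℝ) + 6) ^ 2 / (m + 4) ≤
        116 * m ^ 2 + 36 - (100 / 87) * (92 * m ^ 2 - 72 * m + 72) := by
      rw [div_le_iff₀ hpos]; nlinarith [mul_nonneg (sub_nonneg.2 hm') (sq_nonneg (m : ℝ)),
        mul_nonneg (sub_nonneg.2 hm') (sub_nonneg.2 hm')]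
    linarith

lemma below_curve (N x y : ℝ) (hN : 10 ≤ N) (hx0 : 0 < x) (hy0 : 0 < y) (hx : x ≤ 87 / 100)
    (hy : y ≤ 87 / 100) : x * y * (2 - x * y) < N * (1 - x) * (1 - y) * (N - 2 - x - y) := by
  have h1 : x * y ≤ 7569 / 10000 := by nlinarith
  have h2 : 0 < x * y := mul_pos hx0 hy0
  have h3 : x * y * (2 - x * y) ≤ 95 / 100 := by nlinarith
  have h4 : 169 / 10000 ≤ (1 - x) * (1 - y) := by nlinarith
  have h5 : 626 / 10 ≤ N * (N - 2 - x - y) := by nlinarith
  have h6 : (169 / 10000) * (626 / 10) ≤ ((1 - x) * (1 - y)) * (N * (N - 2 - x - y)) :=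
    mul_le_mul h4 h5 (by norm_num) (by linarith)
  nlinarith

lemma card_eq (E : Fin n → Fin n → Prop) (hb : ∀ i, ∑ j, adj E i j = ∑ j, adj E j i) (i : Fin n) :
    {j | E i j}.ncard = {j | E j i}.ncard := by
  classical
  have h1 : ∀ P : Fin n → Prop, (({j | P j}.ncard : ℕ) : ℝ) = ∑ j, if P j then (1 : ℝ) else 0 := by
    intro P
    rw [Finset.sum_boole, Set.ncard_eq_toFinset_card']
    simp
  have := hb i
  unfold adj at this
  have h2 := h1 (fun j => E i j)
  have h3 := h1 (fun j => E j i)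
  have : (({j | E i j}.ncard : ℕ) : ℝ) = ({j | E j i}.ncard : ℕ) := by
    rw [h2, h3]; convert this
  exact_mod_cast this

end Pool.Agent.MP_31cf8f_co.H41
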